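import Pool.Agent.Results.MP_5d3ebc_al.SLPFails

/-! A balanced simplicial 4-sphere whose Stanley-Reisner ring modulo the colored parameter system
fails the weak Lefschetz property: the suspension of the 3-sphere of `SLPFails`. -/

set_option autoImplicit false
set_option maxRecDepth 20000

universe u

namespace Pool.Agent.Results.MP_5d3ebc_al.WLPFails

open Pool.Agent.Results.MP_5d3ebc_al.SLPFails

/-- The weak Lefschetz property of `S / (I_Δ + (Θ))`: for some linear form `l`, every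
multiplication map by `l` from degree `i` to degree `i + 1` is injective or surjective. -/
def HasWLP (K : Type u) [Field K] {d n : ℕ} (Δ : Finset (Finset (Fin n)))
    (c : Fin n → Fin d) : Prop :=
  ∃ l ∈ deg K Δ c 1, ∀ i : ℕ,
    (∀ a ∈ deg K Δ c i, l * a = 0 → a = 0) ∨
      (∀ b ∈ deg K Δ c (i + 1), ∃ a ∈ deg K Δ c i, l * a = b)

/-! ### The example -/

/-- The facets of the suspension. -/
def facets1 : List ℕ :=
  facets.map (fun F => F ||| 16777216) ++ facets.map (fun F => F ||| 33554432)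

/-- The facets of the boundary of a 5-simplex. -/
def L1 : List ℕ := [16777990, 16777989, 16777987, 16777735, 16777479, 775]

/-- The vertices of that simplex. -/
def e6 : Fin (5 + 1) → Fin 26 := ![0, 1, 2, 8, 9, 24]

/-- The moves. -/
def moves1 : List (ℕ × ℕ) := (775, 33554432) :: moves

lemma e6_inj : Function.Injective e6 := by decide

lemma L1_one : ∀ F ∈ L1, (∀ i : Fin 26, (∀ j, e6 j ≠ i) → F.testBit i = false) ∧
    ∃ j, F.testBit (e6 j) = false := by decide +kernel

lemma L1_two : ∀ j, ∃ F ∈ L1, ∀ i : Fin 26, F.testBit i = true ∨ (∀ j', e6 j' ≠ i) ∨ i = e6 j := by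
  decide +kernel

lemma R_L1 : R 26 L1 = Bd e6 := by
  ext x
  constructor
  · rintro ⟨h0, h1, F, hF, hx⟩
    obtain ⟨g1, j, hj⟩ := L1_one F hF
    refine ⟨h0, h1, ?_, j, ?_⟩
    · intro i hi
      by_contra hne
      have := hx i hne
      rw [g1 i hi] at this
      exact absurd this (by simp)
    · by_contra hne
      have := hx _ hne
      rw [hj] at this
      exact absurd this (by simp)
  · rintro ⟨h0, h1, h2, j, hj⟩
    obtain ⟨F, hF, hFi⟩ := L1_two j
    refine ⟨h0, h1, F, hF, ?_⟩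
    intro i hne
    rcases hFi i with h | h | h
    · exact h
    · exact absurd (h2 i h) hne
    · rw [h] at hne; exact absurd hj hne

lemma check_moves1 : checkAll 26 L1 moves1 = true := by decide +kernel

lemma run_sub1 : ∀ F ∈ run 26 L1 moves1, F ∈ facets1 := by decide +kernel

lemma sub_run1 : ∀ F ∈ facets1, F ∈ run 26 L1 moves1 := by decide +kernel

lemma R_run1 : R 26 (run 26 L1 moves1) = R 26 facets1 := by
  ext x
  constructor
  · rintro ⟨h0, h1, F, hF, hx⟩
    exact ⟨h0, h1, F, run_sub1 F hF, hx⟩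
  · rintro ⟨h0, h1, F, hF, hx⟩
    exact ⟨h0, h1, F, sub_run1 F hF, hx⟩

/-- The example: all subsets of the facets. -/
def Δ1 : Finset (Finset (Fin 26)) :=
  facets1.toFinset.biUnion (fun F => (vs 26 F).powerset)

lemma mem_Δ1 (s : Finset (Fin 26)) : s ∈ Δ1 ↔ ∃ F ∈ facets1, ∀ i ∈ s, F.testBit i = true := by
  simp only [Δ1, Finset.mem_biUnion, List.mem_toFinset, Finset.mem_powerset, Finset.subset_iff,
    mem_vs]

lemma realization_Δ1 : realization Δ1 = R 26 facets1 := by
  ext x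
  constructor
  · rintro ⟨h0, h1, s, hs, hsx⟩
    rw [mem_Δ1] at hs
    obtain ⟨F, hF, hFs⟩ := hs
    exact ⟨h0, h1, F, hF, fun i hi => hFs i ((hsx i).mpr hi)⟩
  · rintro ⟨h0, h1, F, hF, hx⟩
    classical
    refine ⟨h0, h1, Finset.univ.filter (fun i => x i ≠ 0), ?_, ?_⟩
    · rw [mem_Δ1]
      refine ⟨F, hF, ?_⟩
      intro i hi
      exact hx i (by simpa using hi)
    · intro i; simp

/-- The coloring. -/
def c1 : Fin 26 → Fin 5 :=
  ![0, 1, 0, 1, 0, 1, 0, 1, 2, 2, 2, 2, 3, 3, 3, 3, 3, 3, 3, 3, 3, 3, 3, 3, 4, 4]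

lemma isComplex_Δ1 : IsComplex Δ1 := by
  constructor
  · intro s hs t ht
    rw [mem_Δ1] at hs ⊢
    obtain ⟨F, hF, h⟩ := hs
    exact ⟨F, hF, fun i hi => h i (ht hi)⟩
  · intro v
    rw [mem_Δ1]
    have h : ∀ v : Fin 26, ∃ F ∈ facets1, F.testBit v = true := by decide +kernel
    obtain ⟨F, hF, hv⟩ := h v
    exact ⟨F, hF, fun i hi => by rw [Finset.mem_singleton] at hi; rw [hi]; exact hv⟩

lemma isSphere_Δ1 : IsSphere 5 Δ1 := by
  refine ⟨isComplex_Δ1, ?_⟩
  obtain ⟨f⟩ := bd_homeo (d := 5) e6 e6_inj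
  obtain ⟨g⟩ := run_homeo 26 moves1 L1 check_moves1
  rw [R_L1, R_run1] at g
  rw [realization_Δ1]
  exact ⟨g.symm.trans f⟩

lemma proper_c1 : IsProperColoring Δ1 c1 := by
  intro a b hab h
  rw [mem_Δ1] at h
  obtain ⟨F, hF, hFi⟩ := h
  have h1 := hFi a (by simp)
  have h2 := hFi b (by simp)
  have key : ∀ a b : Fin 26, a ≠ b → c1 a = c1 b → ∀ F ∈ facets1,
      F.testBit a = true → F.testBit b = true → False := by decide +kernel
  intro hc
  exact key a b hab hc F hF h1 h2

/-- The inclusion of the old vertices. -/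
def emb (v : Fin 24) : Fin 26 := ⟨v.1, by omega⟩

lemma emb_inj : Function.Injective emb := by decide

lemma c1_emb : ∀ v, c1 (emb v) = (c0 v).castSucc := by decide

lemma cases26 : ∀ v : Fin 26, (∃ w, v = emb w) ∨ v = 24 ∨ v = 25 := by decide

/-- Old facets inside new ones. -/
lemma old_of_new : ∀ F ∈ facets1, ∃ G ∈ facets, ∀ i : Fin 24, F.testBit i.1 = G.testBit i.1 := by
  intro F hF
  rw [facets1, List.mem_append, List.mem_map, List.mem_map] at hF
  have h24 : ∀ i : Fin 24, (16777216 : ℕ).testBit i.1 = false := by decide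
  have h25 : ∀ i : Fin 24, (33554432 : ℕ).testBit i.1 = false := by decide
  rcases hF with ⟨G, hG, rfl⟩ | ⟨G, hG, rfl⟩
  · refine ⟨G, hG, fun i => ?_⟩
    rw [Nat.testBit_lor, h24 i, Bool.or_false]
  · refine ⟨G, hG, fun i => ?_⟩
    rw [Nat.testBit_lor, h25 i, Bool.or_false]

lemma not_both : ∀ F ∈ facets1, F.testBit 24 = true → F.testBit 25 = true → False := by
  decide +kernel

/-! ### Algebra -/

section Gen
variable {R : Type u} [CommRing R] {ι : Type}

lemma sum_inl (s : Finset ι) (g : ι → R) (h : ∑ i ∈ s, g i = 0) :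
    ∑ i ∈ s, (TrivSqZeroExt.inl (g i) : DualNumber R) = 0 := by
  have h2 := congrArg (TrivSqZeroExt.inlHom R R) h
  rw [map_sum, map_zero] at h2
  exact h2

lemma prod_inl (s : Finset ι) (g : ι → R) (h : ∏ i ∈ s, g i = 0) :
    ∏ i ∈ s, (TrivSqZeroExt.inl (g i) : DualNumber R) = 0 := by
  have h2 := congrArg (TrivSqZeroExt.inlHom R R) h
  rw [map_prod, map_zero] at h2
  exact h2

lemma eps_neg : (DualNumber.eps : DualNumber R) * -DualNumber.eps = 0 := by
  rw [mul_neg, DualNumber.eps_mul_eps, neg_zero]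

end Gen

section Alg
variable (K : Type u) [Field K]

/-- A homomorphism out of the quotient from the values on the variables. -/
lemma lift_gen {n d : ℕ} (Δ : Finset (Finset (Fin n))) (c : Fin n → Fin d) {B : Type u}
    [CommRing B] [Algebra K B] (f : Fin n → B)
    (h1 : ∀ j : Fin d, ∑ v with c v = j, f v = 0) (h2 : ∀ s : Finset (Fin n), s ∉ Δ →
      ∏ i ∈ s, f i = 0) : ∃ φ : A K Δ c →ₐ[K] B, ∀ p : MvPolynomial (Fin n) K,
        φ (Ideal.Quotient.mk (J K Δ c) p) = MvPolynomial.aeval f p := by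
  have hJ : ∀ a ∈ J K Δ c, MvPolynomial.aeval f a = 0 := by
    intro a ha
    have hle : J K Δ c ≤ RingHom.ker (MvPolynomial.aeval (R := K) f) := by
      apply sup_le
      · apply Ideal.span_le.mpr
        rintro m ⟨s, hs, rfl⟩
        simp only [SetLike.mem_coe, RingHom.mem_ker, map_prod, MvPolynomial.aeval_X]
        exact h2 s hs
      · apply Ideal.span_le.mpr
        rintro m ⟨j, rfl⟩
        simp only [SetLike.mem_coe, RingHom.mem_ker, theta, map_sum, MvPolynomial.aeval_X]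
        exact h1 j
    exact (RingHom.mem_ker).mp (hle ha)
  exact ⟨Ideal.Quotient.liftₐ (J K Δ c) (MvPolynomial.aeval f) hJ, fun p => rfl⟩

/-- Image of a variable in the quotient. -/
noncomputable def x1 (v : Fin 26) : A K Δ1 c1 := Ideal.Quotient.mk (J K Δ1 c1) (MvPolynomial.X v)

lemma x1_theta (j : Fin 5) : ∑ v with c1 v = j, x1 K v = 0 := by
  have h : Ideal.Quotient.mk (J K Δ1 c1) (theta K c1 j) = 0 := by
    rw [Ideal.Quotient.eq_zero_iff_mem]
    exact Ideal.mem_sup_right (Ideal.subset_span ⟨j, rfl⟩)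
  rw [theta, map_sum] at h
  exact h

lemma x1_nonface (s : Finset (Fin 26)) (hs : s ∉ Δ1) : ∏ i ∈ s, x1 K i = 0 := by
  have h : Ideal.Quotient.mk (J K Δ1 c1) (∏ i ∈ s, MvPolynomial.X i) = 0 := by
    rw [Ideal.Quotient.eq_zero_iff_mem]
    exact Ideal.mem_sup_left (Ideal.subset_span ⟨s, hs, rfl⟩)
  rw [map_prod] at h
  exact h

lemma x25 : x1 K 25 = - x1 K 24 := by
  have h := x1_theta K 4
  have hs : (Finset.univ.filter (fun v : Fin 26 => c1 v = 4)) = {24, 25} := by decide
  rw [hs, Finset.sum_pair (by decide)] at h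
  linear_combination h

lemma tau_sq : x1 K 24 * x1 K 24 = 0 := by
  have h1 := x1_nonface K {24, 25} (by
    rw [mem_Δ1]
    rintro ⟨F, hF, hFi⟩
    exact not_both F hF (hFi 24 (by simp)) (hFi 25 (by simp)))
  rw [Finset.prod_pair (by decide), x25] at h1
  linear_combination -h1

/-- The inclusion of the algebra of the 3-sphere. -/
lemma exists_iota : ∃ ι : A K Δ0 c0 →ₐ[K] A K Δ1 c1,
    ∀ p : MvPolynomial (Fin 24) K, ι (Ideal.Quotient.mk (J K Δ0 c0) p) =
      Ideal.Quotient.mk (J K Δ1 c1) (MvPolynomial.rename emb p) := by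
  obtain ⟨ι, hι⟩ := lift_gen K Δ0 c0 (B := A K Δ1 c1) (fun v => x1 K (emb v))
    (by
      intro j
      have hs : ∀ j : Fin 4, (Finset.univ.filter (fun v : Fin 26 => c1 v = j.castSucc)) =
          (Finset.univ.filter (fun v : Fin 24 => c0 v = j)).image emb := by decide
      have h := x1_theta K j.castSucc
      rw [hs j, Finset.sum_image (fun a _ b _ h => emb_inj h)] at h
      exact h)
    (by
      intro s hs
      have h := x1_nonface K (s.image emb) (by
        intro hcon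
        apply hs
        rw [mem_Δ1] at hcon
        rw [mem_Δ0]
        obtain ⟨F, hF, hFi⟩ := hcon
        obtain ⟨G, hG, hGi⟩ := old_of_new F hF
        refine ⟨G, hG, fun i hi => ?_⟩
        rw [← hGi i]
        exact hFi (emb i) (Finset.mem_image_of_mem emb hi))
      rw [Finset.prod_image (fun a _ b _ h => emb_inj h)] at h
      exact h)
  refine ⟨ι, fun p => ?_⟩
  rw [hι]
  have : (MvPolynomial.aeval (R := K) (fun v => x1 K (emb v))) =
      (Ideal.Quotient.mkₐ K (J K Δ1 c1)).comp (MvPolynomial.rename (R := K) emb) := by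
    apply MvPolynomial.algHom_ext
    intro i
    simp [x1]
  rw [this]
  rfl

/-- The homomorphism to the dual numbers over the algebra of the 3-sphere. -/
lemma exists_phi : ∃ φ : A K Δ1 c1 →ₐ[K] DualNumber (A K Δ0 c0),
    (∀ v, φ (x1 K (emb v)) = TrivSqZeroExt.inl (x K v)) ∧ φ (x1 K 24) = DualNumber.eps := by
  classical
  let f : Fin 26 → DualNumber (A K Δ0 c0) := fun v =>
    if h : v.1 < 24 then TrivSqZeroExt.inl (x K ⟨v.1, h⟩) else
      if v = 24 then DualNumber.eps else -DualNumber.eps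
  have f_emb : ∀ w : Fin 24, f (emb w) = TrivSqZeroExt.inl (x K w) := by
    intro w
    have : (emb w).1 < 24 := w.2
    simp only [f, this, dif_pos]
    rfl
  have f24 : f 24 = DualNumber.eps := by
    simp [f]
  have f25 : f 25 = -DualNumber.eps := by
    have h1 : ¬ ((25 : Fin 26).1 < 24) := by decide
    have h2 : (25 : Fin 26) ≠ 24 := by decide
    simp only [f, h1, h2, dif_neg, if_false, not_false_eq_true]
  obtain ⟨φ, hφ⟩ := lift_gen K Δ1 c1 (B := DualNumber (A K Δ0 c0)) f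
    (by
      intro j
      refine Fin.lastCases ?_ (fun j => ?_) j
      · have hs : (Finset.univ.filter (fun v : Fin 26 => c1 v = Fin.last 4)) = {24, 25} := by
          decide
        rw [hs, Finset.sum_pair (by decide), f24, f25, add_neg_cancel]
      · have hs : ∀ j : Fin 4, (Finset.univ.filter (fun v : Fin 26 => c1 v = j.castSucc)) =
            (Finset.univ.filter (fun v : Fin 24 => c0 v = j)).image emb := by decide
        rw [hs j, Finset.sum_image (fun a _ b _ h => emb_inj h)]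
        simp only [f_emb]
        exact sum_inl _ _ (x_theta K j))
    (by
      intro s hs
      by_cases hb : 24 ∈ s ∧ 25 ∈ s
      · have hdvd := Finset.prod_dvd_prod_of_subset {24, 25} s f (by
          intro c hc
          simp only [Finset.mem_insert, Finset.mem_singleton] at hc
          rcases hc with rfl | rfl
          · exact hb.1
          · exact hb.2)
        rw [Finset.prod_pair (by decide), f24, f25, eps_neg] at hdvd
        exact zero_dvd_iff.mp hdvd
      · set s0 : Finset (Fin 24) := Finset.univ.filter (fun v => emb v ∈ s) with hs0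
        have hs0n : s0 ∉ Δ0 := by
          intro hcon
          apply hs
          rw [mem_Δ0] at hcon
          rw [mem_Δ1]
          obtain ⟨G, hG, hGi⟩ := hcon
          have t24 : ∀ i : Fin 24, (16777216 : ℕ).testBit i.1 = false := by decide
          have t25 : ∀ i : Fin 24, (33554432 : ℕ).testBit i.1 = false := by decide
          by_cases h24 : 24 ∈ s
          · refine ⟨G ||| 16777216, ?_, ?_⟩
            · rw [facets1, List.mem_append]
              exact Or.inl (List.mem_map_of_mem hG)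
            · intro i hi
              rcases cases26 i with ⟨w, rfl⟩ | rfl | rfl
              · have := hGi w (by rw [hs0, Finset.mem_filter]; exact ⟨Finset.mem_univ _, hi⟩)
                have h3 : (emb w).1 = w.1 := rfl
                rw [h3, Nat.testBit_lor, this, Bool.true_or]
              · rw [Nat.testBit_lor]
                have : (16777216 : ℕ).testBit ((24 : Fin 26) : ℕ) = true := by decide
                rw [this, Bool.or_true]
              · exact absurd ⟨h24, hi⟩ hb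
          · refine ⟨G ||| 33554432, ?_, ?_⟩
            · rw [facets1, List.mem_append]
              exact Or.inr (List.mem_map_of_mem hG)
            · intro i hi
              rcases cases26 i with ⟨w, rfl⟩ | rfl | rfl
              · have := hGi w (by rw [hs0, Finset.mem_filter]; exact ⟨Finset.mem_univ _, hi⟩)
                have h3 : (emb w).1 = w.1 := rfl
                rw [h3, Nat.testBit_lor, this, Bool.true_or]
              · exact absurd hi h24
              · rw [Nat.testBit_lor]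
                have : (33554432 : ℕ).testBit ((25 : Fin 26) : ℕ) = true := by decide
                rw [this, Bool.or_true]
        have h := x_nonface K s0 hs0n
        have hdvd := Finset.prod_dvd_prod_of_subset (s0.image emb) s f (by
          intro c hc
          rw [Finset.mem_image] at hc
          obtain ⟨w, hw, rfl⟩ := hc
          rw [hs0, Finset.mem_filter] at hw
          exact hw.2)
        rw [Finset.prod_image (fun a _ b _ h => emb_inj h)] at hdvd
        simp only [f_emb] at hdvd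
        rw [prod_inl _ _ h] at hdvd
        exact zero_dvd_iff.mp hdvd)
  refine ⟨φ, fun v => ?_, ?_⟩
  · rw [x1, hφ, MvPolynomial.aeval_X, f_emb]
  · rw [x1, hφ, MvPolynomial.aeval_X, f24]

end Alg

section Abs
variable {K R S : Type u} [Field K] [CommRing R] [CommRing S] [Algebra K R] [Algebra K S]

lemma fst_key (l r s : R) (c : K) :
    TrivSqZeroExt.fst (((TrivSqZeroExt.inl l : DualNumber R) + c • DualNumber.eps) *
      (TrivSqZeroExt.inl r + TrivSqZeroExt.inr s)) = l * r := by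
  simp

lemma snd_key (l r s : R) (c : K) :
    TrivSqZeroExt.snd (((TrivSqZeroExt.inl l : DualNumber R) + c • DualNumber.eps) *
      (TrivSqZeroExt.inl r + TrivSqZeroExt.inr s)) = l * s + c • r := by
  simp

/-- Multiplication by `l + c τ` is not injective. -/
lemma abs_inj (ι : R →ₐ[K] S) (φ : S →ₐ[K] DualNumber R) (τ : S) (hτ : τ * τ = 0)
    (hφ : ∀ r, φ (ι r) = TrivSqZeroExt.inl r) (hφτ : φ τ = DualNumber.eps)
    (D1 D2 : Submodule K R) (E2 : Submodule K S)
    (h2 : ∀ r ∈ D2, ι r ∈ E2) (h1 : ∀ r ∈ D1, τ * ι r ∈ E2)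
    (l : R) (hl : ∀ r ∈ D1, l * r ∈ D2) (c : K) (y : R) (hy : y ∈ D1) (hy0 : y ≠ 0)
    (h : l ^ 2 * y = 0) : ∃ z ∈ E2, z ≠ 0 ∧ (ι l + c • τ) * z = 0 := by
  have hly : l * (l * y) = 0 := by rw [← h]; ring
  by_cases hc : c = 0
  · subst hc
    by_cases hl0 : l * y = 0
    · refine ⟨τ * ι y, h1 y hy, ?_, ?_⟩
      · intro hz
        have h3 := congrArg (fun q => TrivSqZeroExt.snd (φ q)) hz
        simp only [map_mul, hφ, hφτ, map_zero, TrivSqZeroExt.snd_zero] at h3
        apply hy0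
        simpa using h3
      · have h3 : (ι l + (0 : K) • τ) * (τ * ι y) = τ * ι (l * y) := by
          rw [map_mul, zero_smul]; ring
        rw [h3, hl0, map_zero, mul_zero]
    · refine ⟨ι (l * y), h2 _ (hl y hy), ?_, ?_⟩
      · intro hz
        have h3 := congrArg (fun q => TrivSqZeroExt.fst (φ q)) hz
        simp only [hφ, map_zero, TrivSqZeroExt.fst_zero, TrivSqZeroExt.fst_inl] at h3
        exact hl0 h3
      · have h3 : (ι l + (0 : K) • τ) * ι (l * y) = ι (l * (l * y)) := by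
          rw [map_mul ι l (l * y), zero_smul]; ring
        rw [h3, hly, map_zero]
  · refine ⟨c • (τ * ι y) - ι (l * y), E2.sub_mem (E2.smul_mem c (h1 y hy)) (h2 _ (hl y hy)),
      ?_, ?_⟩
    · intro hz
      have h3 := congrArg (fun q => TrivSqZeroExt.snd (φ q)) hz
      simp only [map_sub, map_smul, map_mul, hφ, hφτ, map_zero, TrivSqZeroExt.snd_zero] at h3
      have h4 : c • y = 0 := by simpa using h3
      rcases smul_eq_zero.mp h4 with h5 | h5
      · exact hc h5
      · exact hy0 h5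
    · have h3 : (ι l + c • τ) * (c • (τ * ι y) - ι (l * y)) =
          (c * c) • ((τ * τ) * ι y) - ι (l * (l * y)) := by
        rw [map_mul ι l (l * y), map_mul ι l y]
        simp only [Algebra.smul_def, map_mul]
        ring
      rw [h3, hτ, hly, map_zero, zero_mul, smul_zero, sub_zero]

/-- Multiplication by `l + c τ` is not surjective. -/
lemma abs_surj (ι : R →ₐ[K] S) (φ : S →ₐ[K] DualNumber R) (τ : S)
    (hφ : ∀ r, φ (ι r) = TrivSqZeroExt.inl r) (hφτ : φ τ = DualNumber.eps)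
    (D1 D2 D3 : Submodule K R) (E2 E3 : Submodule K S)
    (h3 : ∀ r ∈ D3, ι r ∈ E3) (h2 : ∀ r ∈ D2, τ * ι r ∈ E3)
    (hE : ∀ z ∈ E2, TrivSqZeroExt.fst (φ z) ∈ D2 ∧ TrivSqZeroExt.snd (φ z) ∈ D1)
    (l : R) (c : K) (b0 : R) (hb0 : b0 ∈ D3) (h : ∀ y ∈ D1, l ^ 2 * y ≠ b0) :
    ∃ b ∈ E3, ∀ z ∈ E2, (ι l + c • τ) * z ≠ b := by
  have key1 : ∀ z, TrivSqZeroExt.fst (φ ((ι l + c • τ) * z)) =
      l * TrivSqZeroExt.fst (φ z) := by
    intro z
    rw [map_mul, map_add, map_smul, hφ, hφτ]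
    conv_lhs => rw [← TrivSqZeroExt.inl_fst_add_inr_snd_eq (φ z)]
    exact fst_key l _ _ c
  have key2 : ∀ z, TrivSqZeroExt.snd (φ ((ι l + c • τ) * z)) =
      l * TrivSqZeroExt.snd (φ z) + c • TrivSqZeroExt.fst (φ z) := by
    intro z
    rw [map_mul, map_add, map_smul, hφ, hφτ]
    conv_lhs => rw [← TrivSqZeroExt.inl_fst_add_inr_snd_eq (φ z)]
    exact snd_key l _ _ c
  by_cases hc : c = 0
  · by_cases hu : ∃ u ∈ D2, l * u = b0
    · obtain ⟨u, hu, hu0⟩ := hu
      refine ⟨τ * ι u, h2 u hu, fun z hz heq => ?_⟩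
      have h4 := key2 z
      rw [heq, map_mul, hφ, hφτ, hc, zero_smul, add_zero] at h4
      have h5 : u = l * TrivSqZeroExt.snd (φ z) := by
        rw [← h4]; simp
      apply h _ (hE z hz).2
      rw [← hu0, h5]
      ring
    · refine ⟨ι b0, h3 _ hb0, fun z hz heq => hu ⟨_, (hE z hz).1, ?_⟩⟩
      rw [← key1 z, heq, hφ, TrivSqZeroExt.fst_inl]
  · refine ⟨ι b0, h3 _ hb0, fun z hz heq => ?_⟩
    have h4 := key1 z
    have h5 := key2 z
    rw [heq, hφ, TrivSqZeroExt.fst_inl] at h4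
    rw [heq, hφ, TrivSqZeroExt.snd_inl] at h5
    apply h (-(c⁻¹ • TrivSqZeroExt.snd (φ z)))
      (D1.neg_mem (D1.smul_mem _ (hE z hz).2))
    have h6 : TrivSqZeroExt.fst (φ z) = -(c⁻¹ • (l * TrivSqZeroExt.snd (φ z))) := by
      have h7 : c • TrivSqZeroExt.fst (φ z) = -(l * TrivSqZeroExt.snd (φ z)) := by
        linear_combination -h5
      have h8 := congrArg (fun q => c⁻¹ • q) h7
      simp only [smul_smul, inv_mul_cancel₀ hc, one_smul, smul_neg] at h8
      exact h8
    rw [h4, h6]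
    simp only [mul_neg, mul_smul_comm]
    rw [pow_two, mul_assoc]

end Abs

section Final
variable (K : Type u) [Field K]

lemma mk_mem_deg {n d : ℕ} (Δ : Finset (Finset (Fin n))) (c : Fin n → Fin d) (i : ℕ)
    (p : MvPolynomial (Fin n) K) (hp : p.IsHomogeneous i) :
    Ideal.Quotient.mk (J K Δ c) p ∈ deg K Δ c i := ⟨p, hp, rfl⟩

lemma deg_mul {n d : ℕ} (Δ : Finset (Finset (Fin n))) (c : Fin n → Fin d) (i j : ℕ)
    (a b : A K Δ c) (ha : a ∈ deg K Δ c i) (hb : b ∈ deg K Δ c j) :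
    a * b ∈ deg K Δ c (i + j) := by
  obtain ⟨p, hp, rfl⟩ := ha
  obtain ⟨q, hq, rfl⟩ := hb
  refine ⟨p * q, ?_, map_mul (Ideal.Quotient.mk (J K Δ c)) p q⟩
  exact MvPolynomial.IsHomogeneous.mul hp hq

lemma one_mem_deg {n d : ℕ} (Δ : Finset (Finset (Fin n))) (c : Fin n → Fin d) :
    (1 : A K Δ c) ∈ deg K Δ c 0 := 
  ⟨1, MvPolynomial.isHomogeneous_one _ _, map_one (Ideal.Quotient.mk (J K Δ c))⟩

/-- Linear forms are combinations of the variables. -/
lemma deg_one1 (l : A K Δ1 c1) (hl : l ∈ deg K Δ1 c1 1) :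
    ∃ a : Fin 26 → K, l = ∑ v, a v • x1 K v := by
  obtain ⟨p, hp, rfl⟩ := hl
  rw [SetLike.mem_coe, MvPolynomial.homogeneousSubmodule_one_eq_span_X] at hp
  obtain ⟨a, ha⟩ := (Submodule.mem_span_range_iff_exists_fun K).mp hp
  refine ⟨a, ?_⟩
  rw [← ha, map_sum]
  apply Finset.sum_congr rfl
  intro v _
  rw [map_smul]
  rfl

/-- Products of elements of degree one. -/
lemma snd_mul_mem {R : Type u} [CommRing R] [Algebra K R] (D0 D1 D2 : Submodule K R)
    (h11 : ∀ a ∈ D1, ∀ b ∈ D1, a * b ∈ D2) (h10 : ∀ a ∈ D1, ∀ b ∈ D0, a * b ∈ D1)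
    (p q : DualNumber R) (hp : TrivSqZeroExt.fst p ∈ D1 ∧ TrivSqZeroExt.snd p ∈ D0)
    (hq : TrivSqZeroExt.fst q ∈ D1 ∧ TrivSqZeroExt.snd q ∈ D0) :
    TrivSqZeroExt.fst (p * q) ∈ D2 ∧ TrivSqZeroExt.snd (p * q) ∈ D1 := by
  constructor
  · rw [TrivSqZeroExt.fst_mul]
    exact h11 _ hp.1 _ hq.1
  · have h : TrivSqZeroExt.snd (p * q) = TrivSqZeroExt.fst p * TrivSqZeroExt.snd q +
        TrivSqZeroExt.fst q * TrivSqZeroExt.snd p := by
      rw [TrivSqZeroExt.snd_mul]
      simp [mul_comm]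
    rw [h]
    exact D1.add_mem (h10 _ hp.1 _ hq.2) (h10 _ hq.1 _ hp.2)

lemma not_WLP : ¬ HasWLP K Δ1 c1 := by
  rintro ⟨l, hl, h⟩
  obtain ⟨a, rfl⟩ := deg_one1 K l hl
  obtain ⟨ι, hι⟩ := exists_iota K
  obtain ⟨φ, hφ1, hφτ⟩ := exists_phi K
  have hιx : ∀ v, ι (x K v) = x1 K (emb v) := by
    intro v
    rw [x, hι, MvPolynomial.rename_X]
    rfl
  have hφ : ∀ r, φ (ι r) = TrivSqZeroExt.inl r := by
    have hcomp : φ.comp ι = TrivSqZeroExt.inlAlgHom K (A K Δ0 c0) (A K Δ0 c0) := by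
      apply Ideal.Quotient.algHom_ext
      apply MvPolynomial.algHom_ext
      intro v
      show φ (ι (x K v)) = TrivSqZeroExt.inl (x K v)
      rw [hιx, hφ1]
    intro r
    exact DFunLike.congr_fun hcomp r
  set ℓ : A K Δ0 c0 := ∑ v, a (emb v) • x K v with hℓ
  have hl' : ∑ v, a v • x1 K v = ι ℓ + (a 24 - a 25) • x1 K 24 := by
    rw [Fin.sum_univ_castSucc, Fin.sum_univ_castSucc, hℓ, map_sum]
    have e1 : (Fin.last 24).castSucc = (24 : Fin 26) := by decide
    have e2 : (Fin.last 25) = (25 : Fin 26) := by decide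
    rw [e1, e2, x25, sub_smul, smul_neg]
    have e3 : ∀ v : Fin 24, ι (a (emb v) • x K v) = a (v.castSucc.castSucc) •
        x1 K (v.castSucc.castSucc) := by
      intro v
      rw [map_smul, hιx]
      rfl
    rw [Finset.sum_congr rfl (fun v _ => e3 v)]
    abel
  have hιdeg : ∀ i, ∀ r ∈ deg K Δ0 c0 i, ι r ∈ deg K Δ1 c1 i := by
    rintro i r ⟨p, hp, rfl⟩
    have : ι ((Ideal.Quotient.mkₐ K (J K Δ0 c0)).toLinearMap p) =
        Ideal.Quotient.mk (J K Δ1 c1) (MvPolynomial.rename emb p) := hι p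
    rw [this]
    exact mk_mem_deg K Δ1 c1 i _ (MvPolynomial.IsHomogeneous.rename_isHomogeneous hp)
  have hτ1 : x1 K 24 ∈ deg K Δ1 c1 1 := mk_mem_deg K Δ1 c1 1 _ (MvPolynomial.isHomogeneous_X _ _)
  have hℓ1 : ℓ ∈ deg K Δ0 c0 1 := by
    rw [hℓ]
    apply Submodule.sum_mem
    intro v _
    exact Submodule.smul_mem _ _ (x_mem_deg K v)
  have hτdeg : ∀ i, ∀ r ∈ deg K Δ0 c0 i, x1 K 24 * ι r ∈ deg K Δ1 c1 (i + 1) := by
    intro i r hr
    have := deg_mul K Δ1 c1 1 i _ _ hτ1 (hιdeg i r hr)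
    rwa [add_comm] at this
  have hφX : ∀ v, TrivSqZeroExt.fst (φ (x1 K v)) ∈ deg K Δ0 c0 1 ∧
      TrivSqZeroExt.snd (φ (x1 K v)) ∈ deg K Δ0 c0 0 := by
    intro v
    rcases cases26 v with ⟨w, rfl⟩ | rfl | rfl
    · rw [hφ1, TrivSqZeroExt.fst_inl, TrivSqZeroExt.snd_inl]
      exact ⟨x_mem_deg K w, Submodule.zero_mem _⟩
    · rw [hφτ, DualNumber.fst_eps, DualNumber.snd_eps]
      exact ⟨Submodule.zero_mem _, one_mem_deg K Δ0 c0⟩
    · rw [x25, map_neg, hφτ, TrivSqZeroExt.fst_neg, TrivSqZeroExt.snd_neg, DualNumber.fst_eps,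
        DualNumber.snd_eps, neg_zero]
      exact ⟨Submodule.zero_mem _, Submodule.neg_mem _ (one_mem_deg K Δ0 c0)⟩
  have hφ1deg : ∀ z ∈ deg K Δ1 c1 1, TrivSqZeroExt.fst (φ z) ∈ deg K Δ0 c0 1 ∧
      TrivSqZeroExt.snd (φ z) ∈ deg K Δ0 c0 0 := by
    intro z hz
    obtain ⟨b, rfl⟩ := deg_one1 K z hz
    rw [map_sum]
    rw [TrivSqZeroExt.fst_sum, TrivSqZeroExt.snd_sum]
    constructor
    · apply Submodule.sum_mem
      intro v _
      rw [map_smul, TrivSqZeroExt.fst_smul]
      exact Submodule.smul_mem _ _ (hφX v).1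
    · apply Submodule.sum_mem
      intro v _
      rw [map_smul, TrivSqZeroExt.snd_smul]
      exact Submodule.smul_mem _ _ (hφX v).2
  have hE : ∀ z ∈ deg K Δ1 c1 2, TrivSqZeroExt.fst (φ z) ∈ deg K Δ0 c0 2 ∧
      TrivSqZeroExt.snd (φ z) ∈ deg K Δ0 c0 1 := by
    rintro z ⟨p, hp, rfl⟩
    rw [SetLike.mem_coe, ← MvPolynomial.homogeneousSubmodule_one_pow, pow_two] at hp
    refine Submodule.mul_induction_on hp ?_ ?_
    · intro m hm n hn
      have h1 := hφ1deg _ (mk_mem_deg K Δ1 c1 1 m hm)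
      have h2 := hφ1deg _ (mk_mem_deg K Δ1 c1 1 n hn)
      have h3 := snd_mul_mem K (deg K Δ0 c0 0) (deg K Δ0 c0 1) (deg K Δ0 c0 2)
        (fun a ha b hb => deg_mul K Δ0 c0 1 1 a b ha hb)
        (fun a ha b hb => deg_mul K Δ0 c0 1 0 a b ha hb) _ _ h1 h2
      rw [← map_mul, ← map_mul] at h3
      exact h3
    · intro m n h1 h2
      rw [map_add, map_add, TrivSqZeroExt.fst_add, TrivSqZeroExt.snd_add]
      exact ⟨Submodule.add_mem _ h1.1 h2.1, Submodule.add_mem _ h1.2 h2.2⟩
  rw [hl'] at h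
  rcases h 2 with h1 | h1
  · obtain ⟨y, hy, hy0, h2⟩ := not_inj K (fun v => a (emb v))
    obtain ⟨z, hz, hz0, hzl⟩ := abs_inj ι φ (x1 K 24) (tau_sq K) hφ hφτ (deg K Δ0 c0 1)
      (deg K Δ0 c0 2) (deg K Δ1 c1 2) (hιdeg 2) (hτdeg 1) ℓ
      (fun r hr => deg_mul K Δ0 c0 1 1 _ _ hℓ1 hr) (a 24 - a 25) y hy hy0 h2
    exact hz0 (h1 z hz hzl)
  · obtain ⟨b, hb, h2⟩ := not_surj K (fun v => a (emb v))
    obtain ⟨z, hz, h3⟩ := abs_surj ι φ (x1 K 24) hφ hφτ (deg K Δ0 c0 1)
      (deg K Δ0 c0 2) (deg K Δ0 c0 3) (deg K Δ1 c1 2) (deg K Δ1 c1 3) (hιdeg 3) (hτdeg 2) hE ℓ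
      (a 24 - a 25) b hb h2
    obtain ⟨y, hy, hyz⟩ := h1 z hz
    exact h3 y hy hyz

end Final

/-- There is a balanced simplicial 4-sphere whose Stanley-Reisner ring modulo the colored
parameter system fails the weak Lefschetz property over every field. -/
theorem result : ∃ (n : ℕ) (Δ : Finset (Finset (Fin n))) (c : Fin n → Fin 5),
    IsSphere 5 Δ ∧ IsProperColoring Δ c ∧ ∀ (K : Type u) [Field K], ¬ HasWLP K Δ c :=
  ⟨26, Δ1, c1, isSphere_Δ1, proper_c1, fun K _ => not_WLP K⟩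

end Pool.Agent.Results.MP_5d3ebc_al.WLPFails
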